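import Pool.Agent.Lib.MP_8a5982_an.STAR.Defs

/-!
Project STAR, module PARS: Parseval on the integers modulo `Q`.
-/

open MeasureTheory

namespace STAR

theorem ee_norm (Q c : ℕ) (t : ℤ) : ‖ee Q c t‖ = 1 := by
  unfold ee
  have h : (2 * Real.pi * Complex.I * ((((c : ℤ) * t : ℤ) : ℂ) / (Q : ℂ))) =
      ((2 * Real.pi * (((c : ℤ) * t : ℤ) : ℝ) / (Q : ℝ) : ℝ) : ℂ) * Complex.I := by
    push_cast; ring
  rw [h, Complex.norm_exp_ofReal_mul_I]

theorem ee_conj_mul (Q c c' : ℕ) (t : ℕ) :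
    ee Q c (t : ℤ) * (starRingEnd ℂ) (ee Q c' (t : ℤ)) =
      Complex.exp (2 * Real.pi * Complex.I * (((c : ℂ) - c') / Q)) ^ t := by
  unfold ee
  rw [← Complex.exp_conj, ← Complex.exp_add, ← Complex.exp_nat_mul]
  congr 1
  simp only [map_mul, map_div₀, Complex.conj_I, Complex.conj_ofReal, map_ofNat, map_natCast,
    map_intCast]
  push_cast
  ring

theorem ee_period (Q : ℕ) (hQ : 0 < Q) (c : ℕ) (t k : ℤ) : ee Q c (t + Q * k) = ee Q c t := by
  have hQ' : (Q : ℂ) ≠ 0 := Nat.cast_ne_zero.mpr hQ.ne'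
  unfold ee
  rw [Complex.exp_eq_exp_iff_exists_int]
  refine ⟨c * k, ?_⟩
  push_cast
  field_simp

theorem ee_orth (Q : ℕ) (hQ : 0 < Q) (c c' : ℕ) (hc : c < Q) (hc' : c' < Q) :
    ∑ t ∈ Finset.range Q, ee Q c (t : ℤ) * (starRingEnd ℂ) (ee Q c' (t : ℤ)) =
      if c = c' then (Q : ℂ) else 0 := by
  have hQ' : (Q : ℂ) ≠ 0 := Nat.cast_ne_zero.mpr hQ.ne'
  simp only [ee_conj_mul]
  split_ifs with h
  · subst h
    simp
  · set ζ : ℂ := Complex.exp (2 * Real.pi * Complex.I * (((c : ℂ) - c') / Q)) with hζ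
    have h1 : ζ ^ Q = 1 := by
      rw [hζ, ← Complex.exp_nat_mul, Complex.exp_eq_one_iff]
      refine ⟨(c : ℤ) - c', ?_⟩
      push_cast
      field_simp
    have h2 : ζ ≠ 1 := by
      intro h2
      rw [hζ, Complex.exp_eq_one_iff] at h2
      obtain ⟨n, hn⟩ := h2
      have hpi : (2 * Real.pi * Complex.I : ℂ) ≠ 0 := Complex.two_pi_I_ne_zero
      have h3 : ((c : ℂ) - c') / Q = n := by
        apply mul_left_cancel₀ hpi
        rw [hn]; ring
      rw [div_eq_iff hQ'] at h3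
      have h4 : (c : ℤ) - c' = n * Q := by
        exact_mod_cast h3
      have h5 : n = 0 := by
        by_contra hn0
        rcases lt_or_gt_of_ne hn0 with h6 | h6
        · have : n * (Q : ℤ) ≤ -1 * Q := mul_le_mul_of_nonneg_right (by omega) (by omega)
          omega
        · have : 1 * (Q : ℤ) ≤ n * Q := mul_le_mul_of_nonneg_right (by omega) (by omega)
          omega
      rw [h5, zero_mul] at h4
      omega
    have h3 := mul_neg_geom_sum ζ Q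
    rw [h1, sub_self] at h3
    rcases mul_eq_zero.mp h3 with h4 | h4
    · exact absurd (sub_eq_zero.mp h4).symm h2
    · exact h4

theorem parseval (Q : ℕ) (hQ : 0 < Q) (ρ : ℕ → ℂ) :
    ∑ t ∈ Finset.range Q, ‖∑ c ∈ Finset.range Q, ρ c * ee Q c (t : ℤ)‖ ^ 2 =
      Q * ∑ c ∈ Finset.range Q, ‖ρ c‖ ^ 2 := by
  have h1 : ∀ t : ℕ, ((‖∑ c ∈ Finset.range Q, ρ c * ee Q c (t : ℤ)‖ ^ 2 : ℝ) : ℂ) =
      ∑ c ∈ Finset.range Q, ∑ c' ∈ Finset.range Q, (ρ c * (starRingEnd ℂ) (ρ c')) *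
        (ee Q c (t : ℤ) * (starRingEnd ℂ) (ee Q c' (t : ℤ))) := by
    intro t
    rw [Complex.ofReal_pow, ← Complex.mul_conj', map_sum, Finset.sum_mul_sum]
    refine Finset.sum_congr rfl fun c _ => Finset.sum_congr rfl fun c' _ => ?_
    rw [map_mul]; ring
  have h2 : ((∑ t ∈ Finset.range Q, ‖∑ c ∈ Finset.range Q, ρ c * ee Q c (t : ℤ)‖ ^ 2 : ℝ) : ℂ) =
      ((Q * ∑ c ∈ Finset.range Q, ‖ρ c‖ ^ 2 : ℝ) : ℂ) := by
    rw [Complex.ofReal_sum]
    simp only [h1]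
    rw [Finset.sum_comm]
    have h3 : ∀ c ∈ Finset.range Q, ∑ t ∈ Finset.range Q, ∑ c' ∈ Finset.range Q,
        (ρ c * (starRingEnd ℂ) (ρ c')) * (ee Q c (t : ℤ) * (starRingEnd ℂ) (ee Q c' (t : ℤ))) =
        Q * ((‖ρ c‖ ^ 2 : ℝ) : ℂ) := by
      intro c hc
      rw [Finset.sum_comm]
      have h4 : ∀ c' ∈ Finset.range Q, ∑ t ∈ Finset.range Q,
          (ρ c * (starRingEnd ℂ) (ρ c')) * (ee Q c (t : ℤ) * (starRingEnd ℂ) (ee Q c' (t : ℤ))) =
          if c = c' then Q * ((‖ρ c‖ ^ 2 : ℝ) : ℂ) else 0 := by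
        intro c' hc'
        rw [← Finset.mul_sum, ee_orth Q hQ c c' (Finset.mem_range.mp hc) (Finset.mem_range.mp hc')]
        split_ifs with h
        · subst h
          rw [Complex.mul_conj', mul_comm, Complex.ofReal_pow]
        · rw [mul_zero]
      rw [Finset.sum_congr rfl h4, Finset.sum_ite_eq, if_pos hc]
    rw [Finset.sum_congr rfl h3, ← Finset.mul_sum]
    push_cast
    rfl
  exact Complex.ofReal_injective h2

/-- any set of times which are pairwise incongruent mod `Q` -/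
theorem parseval_le (Q : ℕ) (hQ : 0 < Q) (ρ : ℕ → ℂ) {ι : Type*} (s : Finset ι) (τ : ι → ℤ)
    (hτ : ∀ i ∈ s, ∀ i' ∈ s, (Q : ℤ) ∣ τ i - τ i' → i = i') :
    ∑ i ∈ s, ‖∑ c ∈ Finset.range Q, ρ c * ee Q c (τ i)‖ ^ 2 ≤
      Q * ∑ c ∈ Finset.range Q, ‖ρ c‖ ^ 2 := by
  classical
  have hQ' : (0 : ℤ) < Q := by exact_mod_cast hQ
  rw [← parseval Q hQ ρ]
  let g : ι → ℕ := fun i => (τ i % Q).toNat
  have hg : ∀ i, ((g i : ℕ) : ℤ) = τ i % Q := fun i => Int.toNat_of_nonneg (Int.emod_nonneg _ hQ'.ne')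
  have hinj : Set.InjOn g s := by
    intro i hi i' hi' h
    apply hτ i hi i' hi'
    have h1 : τ i % Q = τ i' % Q := by rw [← hg, ← hg, h]
    exact Int.ModEq.dvd (show τ i' ≡ τ i [ZMOD Q] from h1.symm)
  have hval : ∀ i, ‖∑ c ∈ Finset.range Q, ρ c * ee Q c (τ i)‖ ^ 2 =
      ‖∑ c ∈ Finset.range Q, ρ c * ee Q c ((g i : ℕ) : ℤ)‖ ^ 2 := by
    intro i
    have h1 : ∀ c, ee Q c (τ i) = ee Q c ((g i : ℕ) : ℤ) := by
      intro c
      rw [hg]
      conv_lhs => rw [← Int.emod_add_mul_ediv (τ i) Q]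
      exact ee_period Q hQ c _ _
    simp only [h1]
  rw [Finset.sum_congr rfl fun i _ => hval i,
    ← Finset.sum_image (f := fun t : ℕ => ‖∑ c ∈ Finset.range Q, ρ c * ee Q c (t : ℤ)‖ ^ 2) hinj]
  apply Finset.sum_le_sum_of_subset_of_nonneg
  · intro t ht
    obtain ⟨i, _, rfl⟩ := Finset.mem_image.mp ht
    rw [Finset.mem_range]
    have := Int.emod_lt_of_pos (τ i) hQ'
    have h2 := hg i
    omega
  · intro t _ _
    positivity

/-- the same for distinct frequencies indexed by a finite type -/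
theorem parseval_fin (Q : ℕ) (hQ : 0 < Q) {κ : Type*} [Fintype κ] (c : κ → ℕ)
    (hc : Function.Injective c) (hlt : ∀ j, c j < Q) (w : κ → ℂ) {ι : Type*} (s : Finset ι)
    (τ : ι → ℤ) (hτ : ∀ i ∈ s, ∀ i' ∈ s, (Q : ℤ) ∣ τ i - τ i' → i = i') :
    ∑ i ∈ s, ‖∑ j, w j * ee Q (c j) (τ i)‖ ^ 2 ≤ Q * ∑ j, ‖w j‖ ^ 2 := by
  classical
  let ρ : ℕ → ℂ := Function.extend c w 0
  have hρ : ∀ j, ρ (c j) = w j := fun j => hc.extend_apply w 0 j
  have hρ0 : ∀ x, x ∉ Finset.univ.image c → ρ x = 0 := by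
    intro x hx
    have : ¬ ∃ j, c j = x := by
      rintro ⟨j, rfl⟩
      exact hx (Finset.mem_image_of_mem _ (Finset.mem_univ j))
    exact Function.extend_apply' _ _ _ this
  have hsub : Finset.univ.image c ⊆ Finset.range Q := by
    intro x hx
    obtain ⟨j, _, rfl⟩ := Finset.mem_image.mp hx
    exact Finset.mem_range.mpr (hlt j)
  have h := parseval_le Q hQ ρ s τ hτ
  have e1 : ∀ t : ℤ, ∑ x ∈ Finset.range Q, ρ x * ee Q x t = ∑ j, w j * ee Q (c j) t := by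
    intro t
    rw [← Finset.sum_subset hsub (fun x _ hx => by rw [hρ0 x hx, zero_mul]),
      Finset.sum_image (fun a _ b _ hab => hc hab)]
    exact Finset.sum_congr rfl fun j _ => by rw [hρ]
  have e2 : ∑ x ∈ Finset.range Q, ‖ρ x‖ ^ 2 = ∑ j, ‖w j‖ ^ 2 := by
    rw [← Finset.sum_subset hsub (fun x _ hx => by rw [hρ0 x hx]; simp),
      Finset.sum_image (fun a _ b _ hab => hc hab)]
    exact Finset.sum_congr rfl fun j _ => by rw [hρ]
  simp only [e1, e2] at h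
  exact h

end STAR
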