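import Pool.Agent.Lib.MP_8a5982_an.STAR.Defs
import Pool.Agent.Lib.MP_8a5982_an.HOST.Pieces
import Pool.Agent.Lib.MP_8a5982_an.HOST.Base

/-!
Project STAR: module VARS (helper82): the stage variables in the first chaos.
-/

open MeasureTheory Filter

namespace STAR

namespace Vars

/-! ### The coordinate in `[0, 1)` -/

/-- the representative in `[0,1)` -/
noncomputable def rho (x : UnitAddCircle) : ℝ := (AddCircle.equivIco (1 : ℝ) 0 x : ℝ)

theorem rho_mem (x : UnitAddCircle) : rho x ∈ Set.Ico (0 : ℝ) (0 + 1) :=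
  (AddCircle.equivIco (1 : ℝ) 0 x).2

theorem coe_rho (x : UnitAddCircle) : ((rho x : ℝ) : UnitAddCircle) = x :=
  (AddCircle.equivIco (1 : ℝ) 0).symm_apply_apply x

theorem rho_coe {r : ℝ} (h0 : 0 ≤ r) (h1 : r < 1) : rho (r : UnitAddCircle) = r := by
  have h := coe_rho (r : UnitAddCircle)
  refine (AddCircle.coe_eq_coe_iff_of_mem_Ico (p := (1 : ℝ)) (rho_mem _) ?_).1 h
  exact ⟨h0, by linarith⟩

theorem measurable_rho : Measurable rho :=
  measurable_subtype_coe.comp (AddCircle.measurableEquivIco (1 : ℝ) 0).measurable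

theorem rho_neg {x : UnitAddCircle} (hx : x ≠ 0) : rho (-x) = 1 - rho x := by
  have h := rho_mem x
  have h0 : rho x ≠ 0 := by
    intro h0
    apply hx
    rw [← coe_rho x, h0]
    rfl
  have h1 : 0 < rho x := lt_of_le_of_ne h.1 (Ne.symm h0)
  have h2 := h.2
  have e : ((1 - rho x : ℝ) : UnitAddCircle) = -x := by
    rw [AddCircle.coe_sub, coe_rho, AddCircle.coe_period, zero_sub]
  rw [← e, rho_coe (by linarith) (by linarith)]

/-! ### Arcs -/

theorem mem_arc {Q c : ℕ} (hQ : 0 < Q) (half : 2 * (c + 1) ≤ Q) (x : UnitAddCircle) :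
    x ∈ arc Q c ↔ rho x ∈ Set.Ico ((c : ℝ) / Q) (((c : ℝ) + 1) / Q) := by
  have hQ' : (0 : ℝ) < Q := by exact_mod_cast hQ
  have hh : (2 : ℝ) * ((c : ℝ) + 1) ≤ Q := by exact_mod_cast half
  have hc : ((c : ℝ) + 1) / Q ≤ 1 / 2 := by
    rw [div_le_div_iff₀ hQ' (by norm_num)]
    linarith
  constructor
  · rintro ⟨r, hr, rfl⟩
    have h0 : 0 ≤ r := le_trans (by positivity) hr.1
    have h1 : r < 1 := lt_of_lt_of_le hr.2 (by linarith)
    show rho (r : UnitAddCircle) ∈ _
    rw [rho_coe h0 h1]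
    exact hr
  · intro h
    exact ⟨rho x, h, coe_rho x⟩

theorem measurableSet_arc {Q c : ℕ} (hQ : 0 < Q) (half : 2 * (c + 1) ≤ Q) :
    MeasurableSet (arc Q c) := by
  have : arc Q c = rho ⁻¹' Set.Ico ((c : ℝ) / Q) (((c : ℝ) + 1) / Q) := by
    ext x
    exact mem_arc hQ half x
  rw [this]
  exact measurable_rho measurableSet_Ico

/-- the arc without the point `0` -/
def arcz (Q c : ℕ) : Set UnitAddCircle := arc Q c \ {0}

theorem measurableSet_arcz {Q c : ℕ} (hQ : 0 < Q) (half : 2 * (c + 1) ≤ Q) :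
    MeasurableSet (arcz Q c) := (measurableSet_arc hQ half).diff (measurableSet_singleton 0)

theorem arcz_inj {Q c c' : ℕ} (hQ : 0 < Q) (half : 2 * (c + 1) ≤ Q) (half' : 2 * (c' + 1) ≤ Q)
    {x : UnitAddCircle} (h : x ∈ arcz Q c) (h' : x ∈ arcz Q c') : c = c' := by
  have hQ' : (0 : ℝ) < Q := by exact_mod_cast hQ
  have h1 := (mem_arc hQ half x).1 h.1
  have h2 := (mem_arc hQ half' x).1 h'.1
  have h3 : (c : ℝ) / Q < ((c' : ℝ) + 1) / Q := lt_of_le_of_lt h1.1 h2.2
  have h4 : (c' : ℝ) / Q < ((c : ℝ) + 1) / Q := lt_of_le_of_lt h2.1 h1.2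
  rw [div_lt_div_iff_of_pos_right hQ'] at h3 h4
  have h5 : c < c' + 1 := by exact_mod_cast h3
  have h6 : c' < c + 1 := by exact_mod_cast h4
  omega

theorem arcz_neg {Q c c' : ℕ} (hQ : 0 < Q) (half : 2 * (c + 1) ≤ Q) (half' : 2 * (c' + 1) ≤ Q)
    {x : UnitAddCircle} (h : x ∈ arcz Q c) : -x ∉ arcz Q c' := by
  intro h'
  have hQ' : (0 : ℝ) < Q := by exact_mod_cast hQ
  have hh : (2 : ℝ) * ((c : ℝ) + 1) ≤ Q := by exact_mod_cast half
  have hc : ((c : ℝ) + 1) / Q ≤ 1 / 2 := by
    rw [div_le_div_iff₀ hQ' (by norm_num)]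
    linarith
  have hh' : (2 : ℝ) * ((c' : ℝ) + 1) ≤ Q := by exact_mod_cast half'
  have hc' : ((c' : ℝ) + 1) / Q ≤ 1 / 2 := by
    rw [div_le_div_iff₀ hQ' (by norm_num)]
    linarith
  have h1 := ((mem_arc hQ half x).1 h.1).2
  have h2 := ((mem_arc hQ half' (-x)).1 h'.1).2
  rw [rho_neg h.2] at h2
  linarith

/-- indicator of the arc, complex valued -/
noncomputable def ia (Q c : ℕ) (x : UnitAddCircle) : ℂ := (arcz Q c).indicator (fun _ => 1) x

theorem ia_of {Q c : ℕ} {x : UnitAddCircle} (h : x ∈ arcz Q c) : ia Q c x = 1 := by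
  simp [ia, h]

theorem ia_not {Q c : ℕ} {x : UnitAddCircle} (h : x ∉ arcz Q c) : ia Q c x = 0 := by
  simp [ia, h]

theorem measurable_ia {Q c : ℕ} (hQ : 0 < Q) (half : 2 * (c + 1) ≤ Q) : Measurable (ia Q c) :=
  measurable_const.indicator (measurableSet_arcz hQ half)

/-- the combination with the values `z j` on the arcs and `conj (z j)` on the reflected arcs -/
noncomputable def GG (Q : ℕ) {D : ℕ} (c : Fin D → ℕ) (z : Fin D → ℂ) (x : UnitAddCircle) : ℂ :=
  ∑ j, (z j * ia Q (c j) x + (starRingEnd ℂ) (z j) * ia Q (c j) (-x))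

section
variable {D Q : ℕ} (hQ : 0 < Q) (c : Fin D → ℕ) (hc : Function.Injective c)
  (half : ∀ j, 2 * (c j + 1) ≤ Q) (z : Fin D → ℂ)

include hQ hc half

theorem GG_pos {x : UnitAddCircle} {j : Fin D} (h : x ∈ arcz Q (c j)) : GG Q c z x = z j := by
  unfold GG
  rw [Finset.sum_eq_single j]
  · rw [ia_of h, ia_not (arcz_neg hQ (half j) (half j) h)]
    simp
  · intro k _ hk
    rw [ia_not (fun h' => hk (hc (arcz_inj hQ (half k) (half j) h' h))),
      ia_not (arcz_neg hQ (half j) (half k) h)]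
    simp
  · intro h'
    exact absurd (Finset.mem_univ j) h'

theorem GG_neg {x : UnitAddCircle} {j : Fin D} (h : -x ∈ arcz Q (c j)) :
    GG Q c z x = (starRingEnd ℂ) (z j) := by
  have hx : ∀ k, x ∉ arcz Q (c k) := by
    intro k hk
    exact arcz_neg hQ (half k) (half j) hk h
  unfold GG
  rw [Finset.sum_eq_single j]
  · rw [ia_of h, ia_not (hx j)]
    simp
  · intro k _ hk
    rw [ia_not (hx k), ia_not (fun h' => hk (hc (arcz_inj hQ (half k) (half j) h' h)))]
    simp
  · intro h'
    exact absurd (Finset.mem_univ j) h'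

omit hQ hc half in
theorem GG_zero {x : UnitAddCircle} (h : ∀ j, x ∉ arcz Q (c j)) (h' : ∀ j, -x ∉ arcz Q (c j)) :
    GG Q c z x = 0 := by
  unfold GG
  refine Finset.sum_eq_zero fun k _ => ?_
  rw [ia_not (h k), ia_not (h' k)]
  simp

theorem norm_GG (x : UnitAddCircle) : ‖GG Q c z x‖ ^ 2 =
    ∑ j, (‖z j‖ ^ 2 * (arcz Q (c j)).indicator (fun _ => (1 : ℝ)) x +
      ‖z j‖ ^ 2 * (arcz Q (c j)).indicator (fun _ => (1 : ℝ)) (-x)) := by
  by_cases h : ∃ j, x ∈ arcz Q (c j)
  · obtain ⟨j, hj⟩ := h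
    rw [GG_pos hQ c hc half z hj, Finset.sum_eq_single j]
    · rw [Set.indicator_of_mem hj, Set.indicator_of_notMem (arcz_neg hQ (half j) (half j) hj)]
      ring
    · intro k _ hk
      rw [Set.indicator_of_notMem (fun h' => hk (hc (arcz_inj hQ (half k) (half j) h' hj))),
        Set.indicator_of_notMem (arcz_neg hQ (half j) (half k) hj)]
      ring
    · intro h'
      exact absurd (Finset.mem_univ j) h'
  · push Not at h
    by_cases h2 : ∃ j, -x ∈ arcz Q (c j)
    · obtain ⟨j, hj⟩ := h2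
      rw [GG_neg hQ c hc half z hj, Finset.sum_eq_single j]
      · rw [Set.indicator_of_mem hj, Set.indicator_of_notMem (h j), RCLike.norm_conj]
        ring
      · intro k _ hk
        rw [Set.indicator_of_notMem (h k),
          Set.indicator_of_notMem (fun h' => hk (hc (arcz_inj hQ (half k) (half j) h' hj)))]
        ring
      · intro h'
        exact absurd (Finset.mem_univ j) h'
    · push Not at h2
      rw [GG_zero c z h h2]
      symm
      rw [norm_zero]
      refine (Finset.sum_eq_zero fun k _ => ?_).trans (by norm_num)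
      rw [Set.indicator_of_notMem (h k), Set.indicator_of_notMem (h2 k)]
      ring

end

/-! ### Characters -/

theorem fourier_diff (n : ℤ) (r s : ℝ) :
    ‖(fourier n (r : UnitAddCircle) : ℂ) - (fourier n (s : UnitAddCircle) : ℂ)‖ ≤
      2 * Real.pi * |(n : ℝ)| * |r - s| := by
  rw [fourier_coe_apply, fourier_coe_apply]
  have e : Complex.exp (2 * Real.pi * Complex.I * n * r / (1 : ℝ)) -
      Complex.exp (2 * Real.pi * Complex.I * n * s / (1 : ℝ)) =
      Complex.exp (((2 * Real.pi * n * s : ℝ) : ℂ) * Complex.I) *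
        (Complex.exp (Complex.I * ((2 * Real.pi * n * (r - s) : ℝ) : ℂ)) - 1) := by
    rw [mul_sub, ← Complex.exp_add]
    push_cast
    ring_nf
  rw [e, norm_mul, Complex.norm_exp_ofReal_mul_I, one_mul]
  refine (Real.norm_exp_I_mul_ofReal_sub_one_le).trans ?_
  rw [Real.norm_eq_abs, abs_mul, abs_mul, abs_mul, abs_of_pos Real.pi_pos, abs_of_pos (by norm_num : (0:ℝ) < 2)]

theorem ee_eq (Q c : ℕ) (t : ℤ) :
    ee Q c t = (fourier t ((((c : ℝ) / Q : ℝ)) : UnitAddCircle) : ℂ) := by
  rw [fourier_coe_apply]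
  unfold ee
  congr 1
  push_cast
  ring

theorem rtrig_shift (a : ℤ →₀ ℝ) (t : ℤ) (x : UnitAddCircle) :
    (fourier t x : ℂ) * HOST.rtrig a x = a.sum fun k y => (y : ℂ) * (fourier (k + t) x : ℂ) := by
  unfold HOST.rtrig Finsupp.sum
  rw [Finset.mul_sum]
  refine Finset.sum_congr rfl fun k _ => ?_
  show (fourier t x : ℂ) * ((a k : ℂ) * (fourier k x : ℂ)) =
    (a k : ℂ) * (fourier (k + t) x : ℂ)
  rw [fourier_add]
  ring

theorem conj_fourier (k : ℤ) (x : UnitAddCircle) :
    (starRingEnd ℂ) (fourier k x : ℂ) = (fourier k (-x) : ℂ) := by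
  rw [← fourier_neg]
  simp [fourier_apply]

theorem conj_rtrig (a : ℤ →₀ ℝ) (x : UnitAddCircle) :
    (starRingEnd ℂ) (HOST.rtrig a x) = HOST.rtrig a (-x) := by
  unfold HOST.rtrig Finsupp.sum
  rw [map_sum]
  refine Finset.sum_congr rfl fun k _ => ?_
  rw [map_mul, conj_fourier, Complex.conj_ofReal]

theorem conj_shift (a : ℤ →₀ ℝ) (t : ℤ) (x : UnitAddCircle) (w : ℂ) :
    (fourier t x : ℂ) * HOST.rtrig a x - (starRingEnd ℂ) w =
      (starRingEnd ℂ) ((fourier t (-x) : ℂ) * HOST.rtrig a (-x) - w) := by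
  rw [map_sub, map_mul, conj_fourier, conj_rtrig, neg_neg]

theorem norm_rtrig_le (a : ℤ →₀ ℝ) (x : UnitAddCircle) :
    ‖HOST.rtrig a x‖ ≤ a.sum fun _ y => |y| := by
  unfold HOST.rtrig Finsupp.sum
  refine (norm_sum_le _ _).trans (Finset.sum_le_sum fun k _ => ?_)
  rw [norm_mul, HOST.norm_fourier_one, mul_one, Complex.norm_real, Real.norm_eq_abs]

theorem near_arc {Q c : ℕ} (hQ : 0 < Q) (half : 2 * (c + 1) ≤ Q) (a : ℤ →₀ ℝ) (t : ℕ)
    {x : UnitAddCircle} (hx : x ∈ arcz Q c) :
    ‖(fourier (t : ℤ) x : ℂ) * HOST.rtrig a x -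
      HOST.rtrig a ((((c : ℝ) / Q : ℝ)) : UnitAddCircle) * ee Q c t‖ ≤
      2 * Real.pi / Q * a.sum fun k y => |y| * (|(k : ℝ)| + t) := by
  have hQ' : (0 : ℝ) < Q := by exact_mod_cast hQ
  have hr := (mem_arc hQ half x).1 hx.1
  rw [ee_eq, mul_comm (HOST.rtrig a _), rtrig_shift, rtrig_shift]
  have hx' := coe_rho x
  generalize rho x = r at hr hx'
  subst hx'
  unfold Finsupp.sum
  rw [← Finset.sum_sub_distrib, Finset.mul_sum]
  refine (norm_sum_le _ _).trans (Finset.sum_le_sum fun k _ => ?_)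
  rw [← mul_sub, norm_mul, Complex.norm_real, Real.norm_eq_abs]
  have h1 := fourier_diff (k + (t : ℤ)) r ((c : ℝ) / Q)
  have h2 : |r - (c : ℝ) / Q| ≤ 1 / Q := by
    have h3 := hr.2
    rw [add_div] at h3
    rw [abs_of_nonneg (by linarith [hr.1])]
    linarith
  have h3 : |((k + (t : ℤ) : ℤ) : ℝ)| ≤ |(k : ℝ)| + t := by
    push_cast
    refine (abs_add_le _ _).trans ?_
    rw [Nat.abs_cast]
  calc |a k| * ‖(fourier (k + (t : ℤ)) (r : UnitAddCircle) : ℂ) -
        (fourier (k + (t : ℤ)) ((((c : ℝ) / Q : ℝ)) : UnitAddCircle) : ℂ)‖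
      ≤ |a k| * (2 * Real.pi * |((k + (t : ℤ) : ℤ) : ℝ)| * |r - (c : ℝ) / Q|) := by
        gcongr
    _ ≤ |a k| * (2 * Real.pi * (|(k : ℝ)| + t) * (1 / Q)) := by
        have := Real.pi_pos
        gcongr
    _ = 2 * Real.pi / Q * (|a k| * (|(k : ℝ)| + t)) := by
        ring

/-! ### Relations -/

theorem rel_shift {σ : Measure UnitAddCircle} [IsProbabilityMeasure σ] {μ : Measure (ℤ → ℝ)}
    (hμ : HOST.IsGaussianShift σ μ) (a : ℤ →₀ ℝ) (t : ℕ) :
    HOST.Rel σ μ (fun x => (fourier (t : ℤ) x : ℂ) * HOST.rtrig a x)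
      (fun ω => HOST.lin a (HOST.iter HOST.shift t ω)) := by
  induction t with
  | zero =>
    have h := HOST.rel_lin hμ a
    have e1 : (fun x : UnitAddCircle => (fourier ((0 : ℕ) : ℤ) x : ℂ) * HOST.rtrig a x)
        = HOST.rtrig a := by
      funext x
      simp
    have e2 : (fun ω => HOST.lin a (HOST.iter HOST.shift ((0 : ℕ) : ℤ) ω)) = HOST.lin a := by
      funext ω
      have := HOST.iter_zero HOST.shift ω
      simp [this]
    rw [e1, e2]
    exact h
  | succ t ih =>
    have h := HOST.Rel.shift hμ ih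
    have e1 : (fun x : UnitAddCircle => (fourier ((t + 1 : ℕ) : ℤ) x : ℂ) * HOST.rtrig a x)
        = fun x => (fourier 1 x : ℂ) * ((fourier (t : ℤ) x : ℂ) * HOST.rtrig a x) := by
      funext x
      push_cast
      rw [fourier_add]
      ring
    have e2 : (fun ω => HOST.lin a (HOST.iter HOST.shift ((t + 1 : ℕ) : ℤ) ω)) =
        fun ω => HOST.lin a (HOST.iter HOST.shift (t : ℤ) (HOST.shift ω)) := by
      funext ω
      have h1 := HOST.iter_add HOST.shift (t : ℤ) 1 ω
      rw [HOST.iter_one] at h1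
      push_cast
      rw [h1]
    rw [e1, e2]
    exact h

end Vars

open Vars

theorem stage_vars (σ : Measure UnitAddCircle) [IsProbabilityMeasure σ]
    (hsymm : σ.map (fun x => -x) = σ) (hna : ∀ x, σ {x} = 0) (μ : Measure (ℤ → ℝ))
    (hμ : HOST.IsGaussianShift σ μ) (D Q : ℕ) (hQ : 0 < Q) (c : Fin D → ℕ)
    (hc : Function.Injective c) (half : ∀ j, 2 * (c j + 1) ≤ Q) :
    ∃ X : Fin D × Bool → (ℤ → ℝ) → ℝ, (∀ i, Measurable (X i)) ∧
      (∀ α : Fin D × Bool → ℝ,
        ∫ ω, Complex.exp (Complex.I * ((∑ i, α i * X i ω : ℝ) : ℂ)) ∂μ =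
          Complex.exp (-(1 / 2) *
            ((∑ i, 2 * (σ (arc Q (c i.1))).toReal * α i ^ 2 : ℝ) : ℂ))) ∧
      ∀ (a : ℤ →₀ ℝ) (t : ℕ),
        MemLp (fun ω => HOST.lin a (HOST.iter HOST.shift t ω) -
          (∑ j, HOST.rtrig a ((((c j : ℝ) / Q : ℝ)) : UnitAddCircle) * ee Q (c j) t *
            ((X (j, false) ω : ℂ) + Complex.I * (X (j, true) ω : ℂ))).re) 2 μ ∧
        ∫ ω, (HOST.lin a (HOST.iter HOST.shift t ω) -
          (∑ j, HOST.rtrig a ((((c j : ℝ) / Q : ℝ)) : UnitAddCircle) * ee Q (c j) t *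
            ((X (j, false) ω : ℂ) + Complex.I * (X (j, true) ω : ℂ))).re) ^ 2 ∂μ ≤
          (2 * Real.pi / Q * a.sum fun k x => |x| * (|(k : ℝ)| + t)) ^ 2 +
          (a.sum fun _ x => |x|) ^ 2 *
            (σ (⋃ j, (arc Q (c j) ∪ -arc Q (c j)))ᶜ).toReal := by
  classical
  have hneg : MeasurePreserving (fun x : UnitAddCircle => -x) σ σ := ⟨by fun_prop, hsymm⟩
  -- the functions
  have hz : ∀ z : Fin D → ℂ, MemLp (GG Q c z) 2 σ ∧
      (∀ x, GG Q c z (-x) = (starRingEnd ℂ) (GG Q c z x)) := by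
    intro z
    constructor
    · have hm : Measurable (GG Q c z) := by
        unfold GG
        refine Finset.measurable_fun_sum _ fun j _ => ?_
        exact ((measurable_ia hQ (half j)).const_mul _).add
          (((measurable_ia hQ (half j)).comp measurable_neg).const_mul _)
      refine MemLp.of_bound hm.aestronglyMeasurable (∑ j, (‖z j‖ + ‖z j‖))
        (Eventually.of_forall fun x => ?_)
      unfold GG
      refine (norm_sum_le _ _).trans (Finset.sum_le_sum fun j _ => ?_)
      have hia : ∀ y, ‖ia Q (c j) y‖ ≤ 1 := by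
        intro y
        by_cases h : y ∈ arcz Q (c j)
        · rw [ia_of h]; simp
        · rw [ia_not h]; simp
      refine (norm_add_le _ _).trans (add_le_add ?_ ?_)
      · rw [norm_mul]
        exact mul_le_of_le_one_right (norm_nonneg _) (hia _)
      · rw [norm_mul, RCLike.norm_conj]
        exact mul_le_of_le_one_right (norm_nonneg _) (hia _)
    · intro x
      unfold GG
      rw [map_sum]
      refine Finset.sum_congr rfl fun j _ => ?_
      have hia : ∀ y, (starRingEnd ℂ) (ia Q (c j) y) = ia Q (c j) y := by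
        intro y
        by_cases h : y ∈ arcz Q (c j)
        · rw [ia_of h]; simp
        · rw [ia_not h]; simp
      rw [map_add, map_mul, map_mul, hia, hia, Complex.conj_conj, neg_neg]
      ring
  -- coefficient vectors of the basic functions
  let zc : Fin D × Bool → Fin D → ℂ := fun i => Pi.single i.1 (if i.2 then -Complex.I else 1)
  choose X hXm hX using fun i : Fin D × Bool =>
    HOST.exists_rel σ hsymm μ hμ (GG Q c (zc i)) (hz (zc i)).1 (hz (zc i)).2
  have hcomb : ∀ α : Fin D × Bool → ℝ,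
      HOST.Rel σ μ (GG Q c fun j => (α (j, false) : ℂ) - Complex.I * (α (j, true) : ℂ))
        (fun ω => ∑ i, α i * X i ω) := by
    intro α
    have h := HOST.Rel.sum hμ (Finset.univ : Finset (Fin D × Bool))
      (fun i x => (α i : ℂ) * GG Q c (zc i) x) (fun i ω => α i * X i ω)
      (fun i _ => HOST.Rel.smul (α i) (hX i))
    have e : (fun x => ∑ i, (α i : ℂ) * GG Q c (zc i) x) =
        GG Q c fun j => (α (j, false) : ℂ) - Complex.I * (α (j, true) : ℂ) := by
      funext x
      rw [Fintype.sum_prod_type]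
      have e1 : ∀ (k : Fin D) (w : ℂ), GG Q c (Pi.single k w) x =
          w * ia Q (c k) x + (starRingEnd ℂ) w * ia Q (c k) (-x) := by
        intro k w
        unfold GG
        rw [Finset.sum_eq_single k]
        · simp
        · intro j _ hj
          rw [Pi.single_eq_of_ne hj]
          simp
        · intro h'
          exact absurd (Finset.mem_univ k) h'
      unfold GG at e1 ⊢
      refine Finset.sum_congr rfl fun j _ => ?_
      rw [Fintype.sum_bool]
      simp only [zc]
      rw [e1, e1]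
      simp only [if_true, map_neg, Complex.conj_I, map_sub, map_mul, Complex.conj_ofReal,
        map_one, Bool.false_eq_true, if_false]
      ring
    rw [e] at h
    exact h
  refine ⟨X, hXm, fun α => ?_, fun a t => ?_⟩
  · rw [HOST.Rel.exp hμ (hcomb α)]
    congr 3
    simp only [norm_GG hQ c hc half]
    have hi : ∀ (j : Fin D) (w : ℝ), Integrable (fun x : UnitAddCircle =>
        w * (arcz Q (c j)).indicator (fun _ => (1 : ℝ)) x) σ := by
      intro j w
      exact ((integrable_const (1 : ℝ)).indicator (measurableSet_arcz hQ (half j))).const_mul w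
    have hi' : ∀ (j : Fin D) (w : ℝ), Integrable (fun x : UnitAddCircle =>
        w * (arcz Q (c j)).indicator (fun _ => (1 : ℝ)) (-x)) σ := by
      intro j w
      exact hneg.integrable_comp_of_integrable (hi j w)
    have hv : ∀ (j : Fin D) (w : ℝ), ∫ x, w * (arcz Q (c j)).indicator (fun _ => (1 : ℝ)) x ∂σ =
        w * (σ (arc Q (c j))).toReal := by
      intro j w
      rw [integral_const_mul, integral_indicator_const _ (measurableSet_arcz hQ (half j))]
      have : σ (arcz Q (c j)) = σ (arc Q (c j)) := measure_sdiff_null (hna 0)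
      simp [Measure.real, this]
    have hv' : ∀ (j : Fin D) (w : ℝ),
        ∫ x, w * (arcz Q (c j)).indicator (fun _ => (1 : ℝ)) (-x) ∂σ =
        w * (σ (arc Q (c j))).toReal := by
      intro j w
      rw [← hv j w]
      have := integral_map (μ := σ) (φ := fun x : UnitAddCircle => -x) hneg.measurable.aemeasurable
        (f := fun x => w * (arcz Q (c j)).indicator (fun _ => (1 : ℝ)) x)
        (by rw [hsymm]; exact (hi j w).aestronglyMeasurable)
      rw [hsymm] at this
      exact this.symm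
    have hsum : ∀ w : Fin D → ℝ, ∫ x, ∑ j, (w j * (arcz Q (c j)).indicator (fun _ => (1 : ℝ)) x +
        w j * (arcz Q (c j)).indicator (fun _ => (1 : ℝ)) (-x)) ∂σ =
        ∑ j, (w j * (σ (arc Q (c j))).toReal + w j * (σ (arc Q (c j))).toReal) := by
      intro w
      rw [integral_finsetSum]
      · refine Finset.sum_congr rfl fun j _ => ?_
        rw [integral_add (hi j _) (hi' j _), hv, hv']
      · intro j _
        exact (hi j _).add (hi' j _)
    rw [hsum fun j => ‖(α (j, false) : ℂ) - Complex.I * (α (j, true) : ℂ)‖ ^ 2,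
      Fintype.sum_prod_type]
    refine Finset.sum_congr rfl fun j _ => ?_
    rw [Fintype.sum_bool]
    have hn : ‖(α (j, false) : ℂ) - Complex.I * (α (j, true) : ℂ)‖ ^ 2 =
        α (j, false) ^ 2 + α (j, true) ^ 2 := by
      rw [← Complex.normSq_eq_norm_sq, Complex.normSq_apply]
      simp
      ring
    rw [hn]
    ring
  · set z : Fin D → ℂ := fun j =>
      HOST.rtrig a ((((c j : ℝ) / Q : ℝ)) : UnitAddCircle) * ee Q (c j) t with hzdef
    have h1 := hcomb fun i => if i.2 then -(z i.1).im else (z i.1).re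
    have h2 := HOST.Rel.sub hμ (rel_shift hμ a t) h1
    have ez : (fun j : Fin D => (((if (j, false).2 then -(z (j, false).1).im
          else (z (j, false).1).re : ℝ)) : ℂ) - Complex.I * (((if (j, true).2 then
          -(z (j, true).1).im else (z (j, true).1).re : ℝ)) : ℂ)) = z := by
      funext j
      apply Complex.ext <;> simp
    rw [ez] at h2
    have eX : (fun ω => HOST.lin a (HOST.iter HOST.shift t ω) -
        ∑ i : Fin D × Bool, (if i.2 then -(z i.1).im else (z i.1).re) * X i ω) =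
        fun ω => HOST.lin a (HOST.iter HOST.shift t ω) -
          (∑ j, z j * ((X (j, false) ω : ℂ) + Complex.I * (X (j, true) ω : ℂ))).re := by
      funext ω
      congr 1
      rw [Fintype.sum_prod_type, Complex.re_sum]
      refine Finset.sum_congr rfl fun j _ => ?_
      rw [Fintype.sum_bool]
      simp
      ring
    rw [eX] at h2
    refine ⟨h2.2.1, ?_⟩
    rw [HOST.Rel.sq hμ h2]
    set K : ℝ := 2 * Real.pi / Q * a.sum fun k x => |x| * (|(k : ℝ)| + t) with hK
    set S : ℝ := a.sum fun _ x => |x| with hS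
    set U : Set UnitAddCircle := ⋃ j, (arcz Q (c j) ∪ -arcz Q (c j)) with hU
    have hUm : MeasurableSet U := by
      refine MeasurableSet.iUnion fun j => ?_
      exact (measurableSet_arcz hQ (half j)).union (measurableSet_arcz hQ (half j)).neg
    have hpt : ∀ x, ‖(fourier (t : ℤ) x : ℂ) * HOST.rtrig a x - GG Q c z x‖ ^ 2 ≤
        K ^ 2 + S ^ 2 * Uᶜ.indicator (fun _ => (1 : ℝ)) x := by
      intro x
      have hind : 0 ≤ S ^ 2 * Uᶜ.indicator (fun _ => (1 : ℝ)) x :=
        mul_nonneg (sq_nonneg _) (Set.indicator_nonneg (fun _ _ => zero_le_one) _)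
      by_cases hx : ∃ j, x ∈ arcz Q (c j)
      · obtain ⟨j, hj⟩ := hx
        rw [GG_pos hQ c hc half z hj]
        have := near_arc hQ (half j) a t hj
        have h3 : ‖(fourier (t : ℤ) x : ℂ) * HOST.rtrig a x - z j‖ ^ 2 ≤ K ^ 2 :=
          pow_le_pow_left₀ (norm_nonneg _) this 2
        linarith
      · by_cases hx' : ∃ j, -x ∈ arcz Q (c j)
        · obtain ⟨j, hj⟩ := hx'
          rw [GG_neg hQ c hc half z hj]
          have := near_arc hQ (half j) a t hj
          rw [conj_shift a t x (z j), RCLike.norm_conj]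
          have h3 : ‖(fourier (t : ℤ) (-x) : ℂ) * HOST.rtrig a (-x) - z j‖ ^ 2 ≤ K ^ 2 :=
            pow_le_pow_left₀ (norm_nonneg _) this 2
          linarith
        · push Not at hx hx'
          rw [GG_zero c z hx hx', sub_zero, norm_mul, HOST.norm_fourier_one, one_mul]
          have hxU : x ∈ Uᶜ := by
            intro h
            obtain ⟨j, hj⟩ := Set.mem_iUnion.1 h
            rcases hj with hj | hj
            · exact hx j hj
            · exact hx' j hj
          rw [Set.indicator_of_mem hxU, mul_one]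
          have := norm_rtrig_le a x
          have h3 : ‖HOST.rtrig a x‖ ^ 2 ≤ S ^ 2 := pow_le_pow_left₀ (norm_nonneg _) this 2
          nlinarith [sq_nonneg K]
    have hle : ∫ x, ‖(fourier (t : ℤ) x : ℂ) * HOST.rtrig a x - GG Q c z x‖ ^ 2 ∂σ ≤
        ∫ x, (K ^ 2 + S ^ 2 * Uᶜ.indicator (fun _ => (1 : ℝ)) x) ∂σ := by
      refine integral_mono (h2.1.integrable_norm_pow (by norm_num)) ?_ hpt
      exact (integrable_const _).add
        (((integrable_const (1 : ℝ)).indicator hUm.compl).const_mul _)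
    refine hle.trans ?_
    rw [integral_add (integrable_const _)
      (((integrable_const (1 : ℝ)).indicator hUm.compl).const_mul _), integral_const,
      integral_const_mul, integral_indicator_const _ hUm.compl]
    have hUs : σ Uᶜ ≤ σ (⋃ j, (arc Q (c j) ∪ -arc Q (c j)))ᶜ := by
      have hsub : Uᶜ ⊆ (⋃ j, (arc Q (c j) ∪ -arc Q (c j)))ᶜ ∪ {0} := by
        intro x hx
        by_cases h0 : x = 0
        · right; exact h0
        · left
          intro h
          apply hx
          obtain ⟨j, hj⟩ := Set.mem_iUnion.1 h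
          refine Set.mem_iUnion.2 ⟨j, ?_⟩
          rcases hj with hj | hj
          · left; exact ⟨hj, h0⟩
          · right
            refine ⟨hj, ?_⟩
            intro h00
            have : -x = 0 := h00
            exact h0 (neg_eq_zero.1 this)
      refine (measure_mono hsub).trans ((measure_union_le _ _).trans ?_)
      rw [hna 0, add_zero]
    have hfin : (σ Uᶜ).toReal ≤ (σ (⋃ j, (arc Q (c j) ∪ -arc Q (c j)))ᶜ).toReal :=
      ENNReal.toReal_mono (measure_ne_top _ _) hUs
    simp only [measureReal_def, measure_univ, ENNReal.toReal_one, smul_eq_mul, mul_one, one_mul]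
    gcongr

end STAR
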