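import Pool.Agent.Lib.MP_8a5982_an.HOST.Defs
import Pool.Agent.Lib.MP_8a5982_an.HOST.Uniq

/-!
Project STAR (MP_8a5982_an): definitions.
-/

open MeasureTheory

namespace STAR

/-- `ee Q c t = exp(2 π i c t / Q)`. -/
noncomputable def ee (Q c : ℕ) (t : ℤ) : ℂ :=
  Complex.exp (2 * Real.pi * Complex.I * ((((c : ℤ) * t : ℤ) : ℂ) / (Q : ℂ)))

/-- The real trigonometric polynomial with frequencies `c j / Q` and coefficients `w j`. -/
noncomputable def yy (Q : ℕ) {D : ℕ} (c : Fin D → ℕ) (w : Fin D → ℂ) (t : ℤ) : ℝ :=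
  (∑ j, w j * ee Q (c j) t).re

/-- Its empirical characteristic function over the window `[0, P)`. -/
noncomputable def AA (P Q : ℕ) {D : ℕ} (c : Fin D → ℕ) (w : Fin D → ℂ) : ℂ :=
  (1 / (P : ℂ)) * ∑ t ∈ Finset.range P, Complex.exp (Complex.I * (yy Q c w (t : ℤ) : ℂ))

/-- The uniform law of large numbers over all spread coefficient vectors. -/
def Star (ε L : ℝ) (P Q : ℕ) {D : ℕ} (c : Fin D → ℕ) : Prop :=
  ∀ w : Fin D → ℂ, (∀ j, ‖w j‖ ^ 2 ≤ L / D) →
    ‖AA P Q c w - ((Real.exp (-(∑ j, ‖w j‖ ^ 2) / 4) : ℝ) : ℂ)‖ ≤ ε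

/-- The elements of `E` which agree with `θ` before the coordinate `j`. -/
def cyl {D B : ℕ} (E : Finset (Fin D → Fin B)) (j : ℕ) (θ : Fin D → Fin B) :
    Finset (Fin D → Fin B) :=
  E.filter fun θ' => ∀ i : Fin D, (i : ℕ) < j → θ' i = θ i

/-- The conditional probability of `θ' j = b` given the coordinates before `j`. -/
noncomputable def cp {D B : ℕ} (E : Finset (Fin D → Fin B)) (j : Fin D) (θ : Fin D → Fin B)
    (b : Fin B) : ℝ :=
  (((cyl E j θ).filter fun θ' => θ' j = b).card : ℝ) / ((cyl E j θ).card : ℝ)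

/-- The arc `[c/Q, (c+1)/Q)` on the circle. -/
def arc (Q c : ℕ) : Set UnitAddCircle :=
  (fun x : ℝ => (x : UnitAddCircle)) '' Set.Ico ((c : ℝ) / Q) (((c : ℝ) + 1) / Q)

/-- The open arc `(c/Q, (c+1)/Q)`. -/
def oarc (Q c : ℕ) : Set UnitAddCircle :=
  (fun x : ℝ => (x : UnitAddCircle)) '' Set.Ioo ((c : ℝ) / Q) (((c : ℝ) + 1) / Q)

/-- The closed arc `[c/Q, (c+1)/Q]`. -/
def carc (Q c : ℕ) : Set UnitAddCircle :=
  (fun x : ℝ => (x : UnitAddCircle)) '' Set.Icc ((c : ℝ) / Q) (((c : ℝ) + 1) / Q)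

/-- `σ` has a good stage of quality `N`: up to mass `1/(N+1)` it is carried by `D` arcs of length
`1/Q` (`Q = C P`) and their reflections, none of them has too much mass, and the uniform law of
large numbers holds for the frequencies `c j / Q` on the window `[0, P)`. -/
def GoodAt (N : ℕ) (σ : Measure UnitAddCircle) : Prop :=
  ∃ (D P C : ℕ) (L : ℝ) (c : Fin D → ℕ), 0 < D ∧ 0 < P ∧ 0 < C ∧ N ≤ C ∧
    Function.Injective c ∧ (∀ j, 2 * (c j + 1) ≤ C * P) ∧ 2 * D * (N + 1) ≤ C * P ∧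
    (∀ j, σ (carc (C * P) (c j)) < ENNReal.ofReal (1 / ((N : ℝ) + 1))) ∧
    (∀ j, σ (carc (C * P) (c j)) < ENNReal.ofReal (L / (((N : ℝ) + 1) * C * D))) ∧
    ENNReal.ofReal (1 - 1 / ((N : ℝ) + 1)) < σ (⋃ j, (oarc (C * P) (c j) ∪ -oarc (C * P) (c j))) ∧
    Star (1 / ((N : ℝ) + 1)) L P (C * P) c

/-- The symmetric probability measures on the circle with `∑ |σ^(n)|⁴ < ∞`. -/
def E4 : Type :=
  {σ : ProbabilityMeasure UnitAddCircle //
    (σ : Measure UnitAddCircle).map (fun x => -x) = (σ : Measure UnitAddCircle) ∧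
    Summable fun n : ℤ => ‖∫ x, (fourier n x : ℂ) ∂(σ : Measure UnitAddCircle)‖ ^ 4}

/-- The underlying measure. -/
def E4.meas (σ : E4) : Measure UnitAddCircle := (σ.1 : Measure UnitAddCircle)

instance (σ : E4) : IsProbabilityMeasure σ.meas := by unfold E4.meas; infer_instance

instance factOneLeFour : Fact ((1 : ENNReal) ≤ 4) := ⟨by norm_num⟩

/-- The sequence of the Fourier coefficients, as an element of `ℓ⁴(ℤ)`. -/
noncomputable def E4.coef (σ : E4) : lp (fun _ : ℤ => ℂ) 4 :=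
  ⟨fun n => ∫ x, (fourier n x : ℂ) ∂σ.meas, by
    refine memℓp_gen ?_
    have h := σ.2.2
    have e : (4 : ENNReal).toReal = ((4 : ℕ) : ℝ) := by norm_num
    simp only [e, Real.rpow_natCast]
    exact h⟩

theorem E4.coef_apply (σ : E4) (n : ℤ) :
    (σ.coef : ℤ → ℂ) n = ∫ x, (fourier n x : ℂ) ∂σ.meas := rfl

theorem E4.coef_injective : Function.Injective E4.coef := by
  intro σ τ h
  have h1 : σ.meas = τ.meas := by
    refine HOST.measure_ext_fourier _ _ fun n => ?_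
    have := congrArg (fun f : lp (fun _ : ℤ => ℂ) 4 => (f : ℤ → ℂ) n) h
    exact this
  exact Subtype.ext (Subtype.ext h1)

/-- The distance `(∑ |σ^(n) - τ^(n)|⁴)^{1/4}`. -/
noncomputable instance : MetricSpace E4 :=
  MetricSpace.induced E4.coef E4.coef_injective inferInstance

/-- The Fourier coefficients of `unif(arc Q c) + unif(- arc Q c)`. -/
noncomputable def uu (Q c : ℕ) (n : ℤ) : ℝ :=
  2 * ((Q : ℝ) * ∫ x in ((c : ℝ) / Q)..(((c : ℝ) + 1) / Q), Real.cos (2 * Real.pi * n * x))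

/-- The symmetric measure with mass `v j` uniformly distributed on `arc Q (c j)` and on
`- arc Q (c j)`. -/
noncomputable def cellMeas (Q : ℕ) {D : ℕ} (c : Fin D → ℕ) (v : Fin D → ℝ) :
    Measure UnitAddCircle :=
  ∑ j, ENNReal.ofReal (v j * Q) • (volume.restrict (arc Q (c j)) + volume.restrict (-arc Q (c j)))

/-- The `f`-mass of the `j`-th of the `D` equal subintervals of `[0, 1/2)`. -/
noncomputable def slotMass (f : UnitAddCircle → ℝ) (D j : ℕ) : ℝ :=
  ∫ x in ((j : ℝ) / (2 * D))..(((j : ℝ) + 1) / (2 * D)), f (x : UnitAddCircle)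

/-- `f` is a symmetric Lipschitz probability density. -/
structure SmoothDensity (f : UnitAddCircle → ℝ) (Λ M : ℝ) : Prop where
  cont : Continuous f
  nonneg : ∀ x, 0 ≤ f x
  le : ∀ x, f x ≤ M
  symm : ∀ x, f (-x) = f x
  one : ∫ x, f x = 1
  lip : ∀ x y, |f x - f y| ≤ Λ * dist x y

end STAR
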