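import Pool.Agent.Lib.MP_8a5982_an.STAR.Defs
import Pool.Agent.Lib.MP_8a5982_an.HOST.CharF

/-!
Project STAR: module GFAM (helper82): Gaussian families and the fourth moment.
-/

open MeasureTheory Filter

namespace STAR

theorem gauss_family {Ω : Type*} [MeasurableSpace Ω] (P : Measure Ω) [IsProbabilityMeasure P]
    {ι : Type} [Fintype ι] (X : ι → Ω → ℝ) (hX : ∀ i, Measurable (X i)) (v : ι → NNReal)
    (h : ∀ α : ι → ℝ, ∫ ω, Complex.exp (Complex.I * ((∑ i, α i * X i ω : ℝ) : ℂ)) ∂P =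
      Complex.exp (-(1 / 2) * ((∑ i, v i * α i ^ 2 : ℝ) : ℂ))) :
    P.map (fun ω i => X i ω) =
      Measure.pi (fun i : ι => ProbabilityTheory.gaussianReal 0 (v i)) := by
  classical
  have hm : Measurable fun ω i => X i ω := measurable_pi_lambda _ hX
  have : IsProbabilityMeasure (P.map (fun ω i => X i ω)) :=
    Measure.isProbabilityMeasure_map hm.aemeasurable
  refine HOST.ext_index _ _ fun s a => ?_
  have hmeas : Measurable fun ω : ι → ℝ =>
      Complex.exp (Complex.I * ((∑ k ∈ s, a k * ω k : ℝ) : ℂ)) := by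
    have : Measurable fun ω : ι → ℝ => ∑ k ∈ s, a k * ω k := by fun_prop
    exact Complex.measurable_exp.comp
      (measurable_const.mul (Complex.measurable_ofReal.comp this))
  rw [integral_map hm.aemeasurable hmeas.aestronglyMeasurable]
  have hs : ∀ ω : ι → ℝ, ∑ k ∈ s, a k * ω k = ∑ i, (if i ∈ s then a i else 0) * ω i := by
    intro ω
    simp [ite_mul, Finset.sum_ite_mem]
  simp only [hs]
  rw [h fun i => if i ∈ s then a i else 0]
  have e : ∀ ω : ι → ℝ, Complex.exp (Complex.I *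
      ((∑ i, (if i ∈ s then a i else 0) * ω i : ℝ) : ℂ)) =
      ∏ i, Complex.exp (Complex.I * (((if i ∈ s then a i else 0) * ω i : ℝ) : ℂ)) := by
    intro ω
    rw [← Complex.exp_sum]
    congr 1
    push_cast
    rw [Finset.mul_sum]
  simp only [e]
  rw [integral_fintype_prod_eq_prod (fun i x =>
    Complex.exp (Complex.I * (((if i ∈ s then a i else 0) * x : ℝ) : ℂ)))]
  have e2 : ∀ (i : ι) (t : ℝ), ∫ x, Complex.exp (Complex.I * ((t * x : ℝ) : ℂ))
      ∂(ProbabilityTheory.gaussianReal 0 (v i)) =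
      Complex.exp (-(1 / 2) * ((v i * t ^ 2 : ℝ) : ℂ)) := by
    intro i t
    have h1 := ProbabilityTheory.charFun_gaussianReal (μ := 0) (v := v i) t
    rw [charFun_apply_real] at h1
    have e3 : ∀ x : ℝ, Complex.exp (Complex.I * ((t * x : ℝ) : ℂ)) =
        Complex.exp (t * x * Complex.I) := by
      intro x
      congr 1
      push_cast
      ring
    simp only [e3]
    rw [h1]
    congr 1
    push_cast
    ring
  simp only [e2]
  rw [← Complex.exp_sum]
  congr 1
  push_cast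
  rw [Finset.mul_sum]

theorem gauss_fourth (v : NNReal) :
    Integrable (fun x : ℝ => x ^ 4) (ProbabilityTheory.gaussianReal 0 v) ∧
      ∫ x, x ^ 4 ∂(ProbabilityTheory.gaussianReal 0 v) = 3 * (v : ℝ) ^ 2 := by
  have h0 : (0 : ℝ) ∈ interior (ProbabilityTheory.integrableExpSet (fun x : ℝ => x)
      (ProbabilityTheory.gaussianReal 0 v)) := by
    rw [ProbabilityTheory.integrableExpSet_fun_id_gaussianReal]
    simp
  constructor
  · exact ProbabilityTheory.integrable_pow_of_mem_interior_integrableExpSet h0 4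
  · have h1 := ProbabilityTheory.iteratedDeriv_mgf_zero h0 4
    rw [ProbabilityTheory.mgf_fun_id_gaussianReal] at h1
    have h2 : ∫ x, x ^ 4 ∂(ProbabilityTheory.gaussianReal 0 v) =
        iteratedDeriv 4 (fun t : ℝ => Real.exp ((0 : ℝ) * t + v * t ^ 2 / 2)) 0 := by
      rw [h1]
      rfl
    rw [h2]
    set c : ℝ := (v : ℝ) with hc
    have d0 : ∀ t : ℝ, HasDerivAt (fun t : ℝ => Real.exp (0 * t + c * t ^ 2 / 2))
        (c * t * Real.exp (0 * t + c * t ^ 2 / 2)) t := by
      intro t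
      have h4 : HasDerivAt (fun t : ℝ => 0 * t + c * t ^ 2 / 2)
          (0 * 1 + c * (((2 : ℕ) : ℝ) * t ^ (2 - 1)) / 2) t :=
        ((hasDerivAt_id t).const_mul 0).add (((hasDerivAt_pow 2 t).const_mul c).div_const 2)
      refine h4.exp.congr_deriv ?_
      norm_num
      ring
    have p1 : ∀ (p : ℝ → ℝ) (p' : ℝ → ℝ), (∀ t, HasDerivAt p (p' t) t) →
        deriv (fun t : ℝ => p t * Real.exp (0 * t + c * t ^ 2 / 2)) =
          fun t : ℝ => (p' t + c * t * p t) * Real.exp (0 * t + c * t ^ 2 / 2) := by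
      intro p p' hp
      funext t
      have h3 : HasDerivAt (fun t : ℝ => p t * Real.exp (0 * t + c * t ^ 2 / 2))
          (p' t * Real.exp (0 * t + c * t ^ 2 / 2) +
            p t * (c * t * Real.exp (0 * t + c * t ^ 2 / 2))) t := (hp t).mul (d0 t)
      rw [h3.deriv]
      ring
    have e0 : (fun t : ℝ => Real.exp (0 * t + c * t ^ 2 / 2)) =
        fun t : ℝ => 1 * Real.exp (0 * t + c * t ^ 2 / 2) := by
      funext t; ring
    have e1 : deriv (fun t : ℝ => Real.exp (0 * t + c * t ^ 2 / 2)) =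
        fun t : ℝ => (c * t) * Real.exp (0 * t + c * t ^ 2 / 2) := by
      rw [e0, p1 (fun _ => 1) (fun _ => 0) (fun t => hasDerivAt_const t 1)]
      funext t; ring
    have e2 : deriv (fun t : ℝ => (c * t) * Real.exp (0 * t + c * t ^ 2 / 2)) =
        fun t : ℝ => (c + c ^ 2 * t ^ 2) * Real.exp (0 * t + c * t ^ 2 / 2) := by
      have q : ∀ t : ℝ, HasDerivAt (fun t => c * t) c t := fun t =>
        ((hasDerivAt_id t).const_mul c).congr_deriv (mul_one c)
      rw [p1 (fun t => c * t) (fun _ => c) q]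
      funext t; ring
    have e3 : deriv (fun t : ℝ => (c + c ^ 2 * t ^ 2) * Real.exp (0 * t + c * t ^ 2 / 2)) =
        fun t : ℝ => (3 * c ^ 2 * t + c ^ 3 * t ^ 3) * Real.exp (0 * t + c * t ^ 2 / 2) := by
      have q : ∀ t : ℝ, HasDerivAt (fun t => c + c ^ 2 * t ^ 2) (2 * c ^ 2 * t) t := fun t =>
        (((hasDerivAt_pow 2 t).const_mul (c ^ 2)).const_add c).congr_deriv (by norm_num; ring)
      rw [p1 (fun t => c + c ^ 2 * t ^ 2) (fun t => 2 * c ^ 2 * t) q]
      funext t; ring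
    have e4 : deriv (fun t : ℝ => (3 * c ^ 2 * t + c ^ 3 * t ^ 3) *
        Real.exp (0 * t + c * t ^ 2 / 2)) =
        fun t : ℝ => (3 * c ^ 2 + 6 * c ^ 3 * t ^ 2 + c ^ 4 * t ^ 4) *
          Real.exp (0 * t + c * t ^ 2 / 2) := by
      have q : ∀ t : ℝ, HasDerivAt (fun t => 3 * c ^ 2 * t + c ^ 3 * t ^ 3)
          (3 * c ^ 2 + 3 * c ^ 3 * t ^ 2) t := fun t =>
        (((hasDerivAt_id t).const_mul (3 * c ^ 2)).add
          ((hasDerivAt_pow 3 t).const_mul (c ^ 3))).congr_deriv (by norm_num; ring)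
      rw [p1 (fun t => 3 * c ^ 2 * t + c ^ 3 * t ^ 3) (fun t => 3 * c ^ 2 + 3 * c ^ 3 * t ^ 2) q]
      funext t; ring
    rw [iteratedDeriv_succ, iteratedDeriv_succ, iteratedDeriv_succ, iteratedDeriv_succ,
      iteratedDeriv_zero, e1, e2, e3, e4]
    simp

end STAR
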